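import Pool.Agent.L7h65.FD.Lad1

set_option autoImplicit false

/-!
# Project FD, part LAD: the pointwise bound
-/

namespace Pool.Agent.L7h65.FD

open Finset Pool.Agent.L7h19.FD
open Pool.Agent.L7h19.IK (Idp)
open Pool.Agent.L7h65.IK
open Pool.Agent.L7h65.FT (sum_gen union_bound fin_ineq)

variable {m : Fin 4 → ℕ} {E : Fin 3 → Finset ℕ}

/-- most tuples have the property -/
lemma good (m : Fin 4 → ℕ) (h : Ok m) (E : Fin 3 → Finset ℕ) (k : ℕ)
    (hN : 2 ^ (k + 1) * ∑ c, (KK (sK m E c) (Mo m c) (Ms m E c)).card ≤ N0 m E) :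
    N0 m E ^ k ≤ 2 * ((Fintype.piFinset (fun _ : Fin k => KN m E)).filter (Cd k m)).card := by
  classical
  rw [N0_eq] at hN ⊢
  set V := ↥(VK m E) with hV
  have : Fintype V := Fintype.ofFinite _
  set φ : ↥(KN m E) ≃ V := eqv2 E h.2 with hφ
  have hcard : Fintype.card V = (KN m E).card := by
    rw [← Fintype.card_coe, Fintype.card_congr φ]
  have hvec : ∀ (v : V) (p : ↥(Mt m).primeFactors), v.1 p = tv m (φ.symm v).1 p := by
    intro v p
    have h1 : φ (φ.symm v) = v := φ.apply_symm_apply v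
    have h2 := congrArg (fun w : V => w.1 p) h1
    rw [← h2]
    rfl
  set U : Finset V := univ.filter (fun v => ∃ c : Fin 3, ∀ p : ↥(Mt m).primeFactors,
    Ln c.castSucc (v.1 p)) with hU
  have hUc : U.card ≤ ∑ c, (KK (sK m E c) (Mo m c) (Ms m E c)).card := by
    have h1 : U ⊆ univ.biUnion (fun c : Fin 3 => (univ : Finset V).filter
        (fun v => ∀ p : ↥(Mt m).primeFactors, Ln c.castSucc (v.1 p))) := by
      intro v hv
      rw [hU, mem_filter] at hv
      obtain ⟨-, c, hv⟩ := hv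
      rw [mem_biUnion]
      exact ⟨c, mem_univ _, mem_filter.2 ⟨mem_univ _, hv⟩⟩
    refine (card_le_card h1).trans (card_biUnion_le.trans (sum_le_sum fun c _ => ?_))
    have hex : ∀ v : V, ∃ e, e ∣ Mt m ∧ ∀ p : ↥(Mt m).primeFactors, (p : ℕ) ∣ e ↔ v.1 p ≠ 0 := by
      intro v
      obtain ⟨e, he, hv⟩ := vec_surj h.2 (fun p => if v.1 p = 0 then (0 : ZMod 2) else 1)
      refine ⟨e, he, fun p => ?_⟩
      have h2 := congrFun hv p
      unfold vec at h2
      by_cases a : (p : ℕ) ∣ e <;> by_cases b : v.1 p = 0 <;> simp [a, b] at h2 ⊢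
    choose e he hv using hex
    apply Finset.card_le_card_of_injOn e
    · intro v hvv
      rw [mem_coe, mem_filter] at hvv
      rw [mem_coe]
      exact mem_Kc h v.2 hvv.2 (he v) (hv v)
    · intro v hvv w hww hvw
      rw [mem_coe, mem_filter] at hvv hww
      apply Subtype.ext
      funext p
      have h2 : v.1 p ≠ 0 ↔ w.1 p ≠ 0 := by
        rw [← hv v p, ← hv w p, hvw]
      by_cases h3 : v.1 p = 0
      · have h4 : w.1 p = 0 := by
          by_contra h5
          exact h2.2 h5 h3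
        rw [h3, h4]
      · have h4 := h2.1 h3
        rcases hvv.2 p with a | a | a
        · exact absurd a (cs_ne c)
        · exact absurd a h3
        · rcases hww.2 p with b | b | b
          · exact absurd b (cs_ne c)
          · exact absurd b h4
          · rw [a, b]
  have hbad := union_bound k U
  have hgood : ((univ : Finset (Fin k → V)).filter
      (fun v => ¬ ∃ y : Fin k → ZMod 2, y ≠ 0 ∧ ∑ i, y i • v i ∈ U)).card ≤
      ((Fintype.piFinset (fun _ : Fin k => KN m E)).filter (Cd k m)).card := by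
    apply Finset.card_le_card_of_injOn (fun v i => ((φ.symm (v i) : ↥(KN m E)) : ℕ × ℕ))
    · intro v hv
      rw [mem_coe, mem_filter] at hv
      rw [mem_coe, mem_filter, Fintype.mem_piFinset]
      refine ⟨fun i => (φ.symm (v i)).2, fun y hy c => ?_⟩
      have h1 : ∑ i, y i • v i ∉ U := fun h2 => hv.2 ⟨y, hy, h2⟩
      have h3 : ∃ p : ↥(Mt m).primeFactors, ¬ Ln c.castSucc ((∑ i, y i • v i : V).1 p) := by
        by_contra hcon
        push Not at hcon
        exact h1 (by
          rw [hU, mem_filter]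
          exact ⟨mem_univ _, c, hcon⟩)
      obtain ⟨p, hp⟩ := h3
      refine ⟨p, p.2, ?_⟩
      have h4 : (∑ i, y i • v i : V).1 p =
          ∑ i, y i • dV ((φ.symm (v i) : ↥(KN m E)) : ℕ × ℕ) p := by
        rw [Submodule.coe_sum, Finset.sum_apply]
        refine sum_congr rfl fun i _ => ?_
        have h5 := hvec (v i) p
        show y i • (v i).1 p = _
        rw [h5]
        rfl
      rw [← h4]
      exact hp
    · intro v _ w _ hvw
      funext i
      exact φ.symm.injective (Subtype.ext (congrFun hvw i))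
  have hsplit := card_filter_add_card_filter_not (s := (univ : Finset (Fin k → V)))
    (fun v => ∃ y : Fin k → ZMod 2, y ≠ 0 ∧ ∑ i, y i • v i ∈ U)
  rw [card_univ, Fintype.card_fun, Fintype.card_fin, hcard] at hsplit
  rw [hcard] at hbad
  set N := (KN m E).card with hNd
  rcases Nat.eq_zero_or_pos k with hk | hk
  · subst hk
    have h0 : ((univ : Finset (Fin 0 → V)).filter
      (fun v => ∃ y : Fin 0 → ZMod 2, y ≠ 0 ∧ ∑ i, y i • v i ∈ U)).card = 0 := by
      rw [card_eq_zero, filter_eq_empty_iff]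
      rintro v - ⟨y, hy, -⟩
      exact hy (Subsingleton.elim _ _)
    omega
  · have h1 : 2 * (2 ^ k * (U.card * N ^ (k - 1))) ≤ N ^ k := by
      calc 2 * (2 ^ k * (U.card * N ^ (k - 1))) = (2 ^ (k + 1) * U.card) * N ^ (k - 1) := by ring
        _ ≤ N * N ^ (k - 1) := Nat.mul_le_mul_right _
            ((Nat.mul_le_mul_left _ hUc).trans hN)
        _ = N ^ k := by
            rw [← pow_succ']
            congr 1
            omega
    omega

lemma cls_G (h : Ok m) (k : ℕ) (c : Fin 3) :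
    ((KK (sK m E c) (Mo m c) (Ms m E c)).card : ℝ) ^ k ≤
      2 ^ (k ^ 2) * (1 + FK true 0 k k m E c) := by
  have h1 := pow_card_le (sK m E c) k (m := Mo m c) (Ms_sqf h E c) (sK_pm m E c)
  have h2 : ((KK (sK m E c) (Mo m c) (Ms m E c)).card : ℝ) ^ k ≤
      2 ^ (k ^ 2) * (1 + ((Ind (sK m E c) k (Mo m c) (Ms m E c)).card : ℝ)) := by exact_mod_cast h1
  rw [FK_true h, zero_mul, pow_zero, one_mul, mul_div_cancel_right₀ _ (by positivity)]
  exact h2

lemma cls_nG (h : Ok m) (k : ℕ) (c : Fin 3) :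
    ((KK (sK m E c) (Mo m c) (Ms m E c)).card : ℝ) ^ k ≤ (2 ^ (dl m E c).toNat) ^ k *
      (2 ^ (k ^ 2) * (1 + (FK false 0 k k m E c + FK true k 0 k m E c))) := by
  have n1 := FK_nonneg h E false 0 k k c
  have n2 := FK_nonneg h E true k 0 k c
  have hpos : (0 : ℝ) < 2 ^ (k ^ 2) := by positivity
  rcases le_total (Mo m c).primeFactors.card (Ms m E c).primeFactors.card with hle | hle
  · have ht : (dl m E c).toNat = (Ms m E c).primeFactors.card - (Mo m c).primeFactors.card := by
      unfold dl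
      omega
    have hd := double (sK m E c) (Mo_sqf h c) (Ms_sqf h E c) (sK_pm m E c)
    have hd' : (KK (sc m E c) (Ms m E c) (Mo m c)).card * 2 ^ (Ms m E c).primeFactors.card =
        (KK (sK m E c) (Mo m c) (Ms m E c)).card * 2 ^ (Mo m c).primeFactors.card := hd
    have e3 : 2 ^ (Ms m E c).primeFactors.card = 2 ^ (dl m E c).toNat *
        2 ^ (Mo m c).primeFactors.card := by
      rw [← pow_add]; congr 1; omega
    rw [e3, ← mul_assoc] at hd'
    have e4 := Nat.eq_of_mul_eq_mul_right (by positivity) hd'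
    have h1 := pow_card_le (sc m E c) k (m := Ms m E c) (Mo_sqf h c) (sc_pm m E c)
    have h2 : ((KK (sc m E c) (Ms m E c) (Mo m c)).card : ℝ) ^ k ≤
      2 ^ (k ^ 2) * (1 + ((Ind (sc m E c) k (Ms m E c) (Mo m c)).card : ℝ)) := by
      exact_mod_cast h1
    have h3 : ((Ind (sc m E c) k (Ms m E c) (Mo m c)).card : ℝ) ≤ FK false 0 k k m E c := by
      rw [FK_false h, zero_mul, pow_zero, one_mul, le_div_iff₀ (by positivity)]
      have : (2 : ℝ) ^ (k * (Mo m c).primeFactors.card) ≤ 2 ^ (k * (Ms m E c).primeFactors.card) :=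
        pow_le_pow_right₀ (by norm_num) (Nat.mul_le_mul_left _ hle)
      exact mul_le_mul_of_nonneg_left this (by positivity)
    have h4 : ((KK (sK m E c) (Mo m c) (Ms m E c)).card : ℝ) =
        ((KK (sc m E c) (Ms m E c) (Mo m c)).card : ℝ) * 2 ^ (dl m E c).toNat := by
      exact_mod_cast e4.symm
    rw [h4, mul_pow, mul_comm]
    apply mul_le_mul_of_nonneg_left _ (by positivity)
    refine h2.trans (mul_le_mul_of_nonneg_left ?_ hpos.le)
    linarith
  · have ht : (dl m E c).toNat = 0 := by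
      unfold dl
      omega
    rw [ht, pow_zero, one_pow, one_mul]
    have h1 := pow_card_le (sK m E c) k (m := Mo m c) (Ms_sqf h E c) (sK_pm m E c)
    have h2 : ((KK (sK m E c) (Mo m c) (Ms m E c)).card : ℝ) ^ k ≤
      2 ^ (k ^ 2) * (1 + ((Ind (sK m E c) k (Mo m c) (Ms m E c)).card : ℝ)) := by
      exact_mod_cast h1
    have h3 : ((Ind (sK m E c) k (Mo m c) (Ms m E c)).card : ℝ) ≤ FK true k 0 k m E c := by
      rw [FK_true h, zero_mul, pow_zero, mul_one, le_div_iff₀ (by positivity)]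
      have : (2 : ℝ) ^ (k * (Ms m E c).primeFactors.card) ≤ 2 ^ (k * (Mo m c).primeFactors.card) :=
        pow_le_pow_right₀ (by norm_num) (Nat.mul_le_mul_left _ hle)
      exact mul_le_mul_of_nonneg_left this (by positivity)
    refine h2.trans (mul_le_mul_of_nonneg_left ?_ hpos.le)
    linarith

/-- the bound for one class -/
lemma cls_all (h : Ok m) (G : Finset (Fin 3)) (k : ℕ) (c : Fin 3) :
    ((KK (sK m E c) (Mo m c) (Ms m E c)).card : ℝ) ^ k ≤ (2 ^ (ex G m E)) ^ k *
      (2 ^ (k ^ 2) * (1 + (∑ c ∈ G, FK true 0 k k m E c +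
        ∑ c ∈ univ.filter (fun c => c ∉ G), (FK false 0 k k m E c + FK true k 0 k m E c)))) := by
  have s1 : 0 ≤ ∑ c ∈ G, FK true 0 k k m E c := sum_nonneg fun c _ => FK_nonneg h E _ _ _ _ _
  have s2 : 0 ≤ ∑ c ∈ univ.filter (fun c => c ∉ G),
      (FK false 0 k k m E c + FK true k 0 k m E c) := sum_nonneg fun c _ =>
        add_nonneg (FK_nonneg h E _ _ _ _ _) (FK_nonneg h E _ _ _ _ _)
  have hpos : (0 : ℝ) < 2 ^ (k ^ 2) := by positivity
  have hone : (1 : ℝ) ≤ (2 ^ (ex G m E)) ^ k := one_le_pow₀ (one_le_pow₀ (by norm_num))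
  by_cases hc : c ∈ G
  · have h1 := cls_G (E := E) h k c
    have h2 : FK true 0 k k m E c ≤ ∑ c ∈ G, FK true 0 k k m E c :=
      single_le_sum (f := fun c => FK true 0 k k m E c) (fun c _ => FK_nonneg h E _ _ _ _ _) hc
    have h3 : (2 : ℝ) ^ (k ^ 2) * (1 + FK true 0 k k m E c) ≤
        2 ^ (k ^ 2) * (1 + (∑ c ∈ G, FK true 0 k k m E c +
        ∑ c ∈ univ.filter (fun c => c ∉ G), (FK false 0 k k m E c + FK true k 0 k m E c))) :=
      mul_le_mul_of_nonneg_left (by linarith) hpos.le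
    refine (h1.trans h3).trans ?_
    exact le_mul_of_one_le_left (by positivity) hone
  · have h1 := cls_nG (E := E) h k c
    have hmem : c ∈ univ.filter (fun c => c ∉ G) := mem_filter.2 ⟨mem_univ _, hc⟩
    have h2 : FK false 0 k k m E c + FK true k 0 k m E c ≤ ∑ c ∈ univ.filter (fun c => c ∉ G),
        (FK false 0 k k m E c + FK true k 0 k m E c) :=
      single_le_sum (f := fun c => FK false 0 k k m E c + FK true k 0 k m E c)
        (fun c _ => add_nonneg (FK_nonneg h E _ _ _ _ _) (FK_nonneg h E _ _ _ _ _)) hmem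
    have h3 : (dl m E c).toNat ≤ ex G m E :=
      le_sup (f := fun c => (dl m E c).toNat) hmem
    have h4 : ((2 : ℝ) ^ (dl m E c).toNat) ^ k ≤ (2 ^ (ex G m E)) ^ k :=
      pow_le_pow_left₀ (by positivity) (pow_le_pow_right₀ (by norm_num) h3) _
    have n1 := FK_nonneg h E false 0 k k c
    have n2 := FK_nonneg h E true k 0 k c
    refine h1.trans (mul_le_mul h4 (mul_le_mul_of_nonneg_left (by linarith) hpos.le)
      (mul_nonneg hpos.le (by linarith)) (by positivity))

/-- **LAD** -/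
theorem s_LAD : S_LAD := by
  intro k m E G h
  have hT : 0 ≤ TK k m E := by
    rw [TK_eq h]
    positivity
  refine ⟨hT, fun τ a b c => FK_nonneg h E τ a b k c, ?_⟩
  unfold gF
  refine fin_ineq k (N0 m E) (ex G m E) _ _ _ hT (sum_nonneg fun c _ => FK_nonneg h E _ _ _ _ _)
    (sum_nonneg fun c _ => add_nonneg (FK_nonneg h E _ _ _ _ _) (FK_nonneg h E _ _ _ _ _)) ?_
  rcases le_or_gt (2 ^ (k + 1) * ∑ c, (KK (sK m E c) (Mo m c) (Ms m E c)).card) (N0 m E)
    with hN | hN
  · left
    have h1 := good m h E k hN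
    rw [TK_eq h]
    exact_mod_cast h1
  · right
    obtain ⟨c, -, hc⟩ := exists_max_image (univ : Finset (Fin 3))
      (fun c => (KK (sK m E c) (Mo m c) (Ms m E c)).card) ⟨0, mem_univ _⟩
    have h1 : ∑ c, (KK (sK m E c) (Mo m c) (Ms m E c)).card ≤
        3 * (KK (sK m E c) (Mo m c) (Ms m E c)).card := by
      refine (sum_le_card_nsmul _ _ _ hc).trans ?_
      rw [card_univ, Fintype.card_fin, smul_eq_mul]
    refine ⟨(KK (sK m E c) (Mo m c) (Ms m E c)).card, ?_, cls_all (E := E) h G k c⟩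
    generalize (KK (sK m E c) (Mo m c) (Ms m E c)).card = n at h1 ⊢
    generalize (∑ c, (KK (sK m E c) (Mo m c) (Ms m E c)).card) = t at h1 hN
    have e1 : 2 ^ (k + 3) * n = 2 ^ (k + 1) * (4 * n) := by ring
    rw [e1]
    exact hN.le.trans (Nat.mul_le_mul_left _ (h1.trans (Nat.mul_le_mul_right _ (by norm_num))))

end Pool.Agent.L7h65.FD
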