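import Pool.Agent.L7h19.FD.Stm
import Pool.Agent.L7h65.FT.Laf

set_option autoImplicit false

/-!
# Project FD, part LAD: the space `K`
-/

namespace Pool.Agent.L7h65.FD

open Finset Pool.Agent.L7h19.FD
open Pool.Agent.L7h19.IK (Idp)
open Pool.Agent.L7h65.IK
open Pool.Agent.L7h65.FT (sum_gen union_bound fin_ineq)

/-! ## Forms -/

lemma sn_pm (a : ZMod 2) : sn a = 1 ∨ sn a = -1 := by
  revert a
  decide

lemma sn_zero : sn 0 = 1 := rfl

lemma sn_eq_one {a : ZMod 2} (h : sn a = 1) : a = 0 := by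
  revert a
  decide

lemma sn_add (a b : ZMod 2) : sn (a + b) = sn a * sn b := by
  revert a b
  decide

lemma Ln_zero (c : Fin 4) : Ln c 0 := Or.inr (Or.inl rfl)

lemma dc_add (c : Fin 4) : dc c + dc c = 0 := by
  revert c
  decide

lemma dc_ne (c : Fin 4) : dc c ≠ 0 := by
  revert c
  decide

lemma Ln_add {c : Fin 4} {v w : V2} (hv : Ln c v) (hw : Ln c w) : Ln c (v + w) := by
  rcases hv with h | h | h
  · exact Or.inl h
  · rw [h, zero_add]; exact hw
  · rcases hw with h' | h' | h'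
    · exact Or.inl h'
    · rw [h', add_zero]; exact Or.inr (Or.inr h)
    · rw [h, h', dc_add]; exact Ln_zero c

lemma om2_add_left (v w e : V2) : om2 (v + w) e = om2 v e + om2 w e := by
  unfold om2
  simp only [Prod.fst_add, Prod.snd_add]
  ring

lemma om2_add_right (v e f : V2) : om2 v (e + f) = om2 v e + om2 v f := by
  unfold om2
  simp only [Prod.fst_add, Prod.snd_add]
  ring

lemma om2_zero_left (e : V2) : om2 0 e = 0 := by
  unfold om2
  simp

lemma om2_self (v : V2) : om2 v v = 0 := by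
  revert v
  decide

lemma dg_zero_left (c : Fin 4) (n : Fin 3 → ZMod 2) (ε : ZMod 2) (e : V2) : dg c n ε 0 e = 0 := by
  unfold dg ph
  split_ifs with h1 h2
  · simp
  · exact absurd rfl h2.1
  · rfl

lemma dg_zero_right (c : Fin 4) (n : Fin 3 → ZMod 2) (ε : ZMod 2) (v : V2) : dg c n ε v 0 = 0 := by
  unfold dg ph
  split_ifs with h1 h2
  · simp
  · exact absurd rfl h2.2
  · rfl

lemma dg_add_left {c : Fin 4} (n : Fin 3 → ZMod 2) (ε : ZMod 2) {v w : V2} (e : V2)
    (hv : Ln c v) (hw : Ln c w) : dg c n ε (v + w) e = dg c n ε v e + dg c n ε w e := by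
  by_cases hc : c = 3
  · unfold dg ph
    rw [if_pos hc, if_pos hc, if_pos hc]
    simp only [Prod.fst_add, Prod.snd_add]
    ring
  · rcases hv with h | h | h
    · exact absurd h hc
    · rw [h, zero_add, dg_zero_left, zero_add]
    · rcases hw with h' | h' | h'
      · exact absurd h' hc
      · rw [h', add_zero, dg_zero_left, add_zero]
      · rw [h, h', dc_add, dg_zero_left, CharTwo.add_self_eq_zero]

lemma dg_add_right {c : Fin 4} (n : Fin 3 → ZMod 2) (ε : ZMod 2) (v : V2) {e f : V2}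
    (he : Ln c e) (hf : Ln c f) : dg c n ε v (e + f) = dg c n ε v e + dg c n ε v f := by
  by_cases hc : c = 3
  · unfold dg ph
    rw [if_pos hc, if_pos hc, if_pos hc]
    simp only [Prod.fst_add, Prod.snd_add]
    ring
  · rcases he with h | h | h
    · exact absurd h hc
    · rw [h, zero_add, dg_zero_right, zero_add]
    · rcases hf with h' | h' | h'
      · exact absurd h' hc
      · rw [h', add_zero, dg_zero_right, add_zero]
      · rw [h, h', dc_add, dg_zero_right, CharTwo.add_self_eq_zero]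

lemma ite_add (a b : ZMod 2) (j : ℤ) (hj : j = 1 ∨ j = -1) :
    (if a + b = 0 then 1 else j) = (if a = 0 then 1 else j) * (if b = 0 then 1 else j) := by
  have key : ∀ x : ZMod 2, x = 0 ∨ x = 1 := by decide
  rcases key a with ha | ha <;> rcases key b with hb | hb <;> rw [ha, hb]
  · simp
  · simp
  · simp
  · rw [if_pos (by decide), if_neg (by decide)]
    rcases hj with h | h <;> rw [h] <;> norm_num

section sy

variable (m : Fin 4 → ℕ) (E : Fin 3 → Finset ℕ) {p q : ℕ}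

lemma sy_pm (hp : p.Prime) (hq : q.Prime) (v e : V2) : sy m E p q v e = 1 ∨ sy m E p q v e = -1 := by
  unfold sy
  split_ifs with h1 h2
  · exact sn_pm _
  · exact Or.inl rfl
  · exact jac_pm hp hq h1

lemma sy_zero_left (e : V2) : sy m E p q 0 e = 1 := by
  unfold sy
  split_ifs with h1 h2
  · rw [dg_zero_left]; rfl
  · rfl
  · exact absurd (om2_zero_left e) h2

lemma sy_add_left (hp : p.Prime) (hq : q.Prime) {v w : V2} (e : V2) (hv : Ln (cl m q) v)
    (hw : Ln (cl m q) w) : sy m E p q (v + w) e = sy m E p q v e * sy m E p q w e := by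
  unfold sy
  by_cases h1 : q = p
  · rw [if_pos h1, if_pos h1, if_pos h1, ← sn_add]
    rw [h1] at hv hw
    rw [dg_add_left _ _ _ hv hw]
  · rw [if_neg h1, if_neg h1, if_neg h1, om2_add_left]
    exact ite_add _ _ _ (jac_pm hp hq h1)

lemma sy_add_right (hp : p.Prime) (hq : q.Prime) (v : V2) {e f : V2} (he : Ln (cl m p) e)
    (hf : Ln (cl m p) f) : sy m E p q v (e + f) = sy m E p q v e * sy m E p q v f := by
  unfold sy
  by_cases h1 : q = p
  · rw [if_pos h1, if_pos h1, if_pos h1, ← sn_add, dg_add_right _ _ _ he hf]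
  · rw [if_neg h1, if_neg h1, if_neg h1, om2_add_right]
    exact ite_add _ _ _ (jac_pm hp hq h1)

end sy

/-- the space `K` -/
def VK (m : Fin 4 → ℕ) (E : Fin 3 → Finset ℕ) :
    Submodule (ZMod 2) (↥(Mt m).primeFactors → V2) where
  carrier := {w | (∀ p : ↥(Mt m).primeFactors, Ln (cl m p) (w p)) ∧
    ∀ p : ↥(Mt m).primeFactors, ∀ e, Ln (cl m p) e →
      ∏ q : ↥(Mt m).primeFactors, sy m E p q (w q) e = 1}
  add_mem' := by
    rintro a b ⟨ha1, ha2⟩ ⟨hb1, hb2⟩
    refine ⟨fun p => Ln_add (ha1 p) (hb1 p), fun p e he => ?_⟩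
    have h1 : ∀ q : ↥(Mt m).primeFactors, sy m E p q ((a + b) q) e =
        sy m E p q (a q) e * sy m E p q (b q) e := fun q =>
      sy_add_left m E (Nat.prime_of_mem_primeFactors p.2) (Nat.prime_of_mem_primeFactors q.2) e
        (ha1 q) (hb1 q)
    rw [prod_congr rfl fun q _ => h1 q, prod_mul_distrib, ha2 p e he, hb2 p e he, one_mul]
  zero_mem' := by
    refine ⟨fun p => Ln_zero _, fun p e _ => prod_eq_one fun q _ => ?_⟩
    exact sy_zero_left m E e
  smul_mem' := by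
    rintro t a ha
    have ht : t = 0 ∨ t = 1 := by
      revert t
      decide
    rcases ht with h | h
    · rw [h, zero_smul]
      refine ⟨fun p => Ln_zero _, fun p e _ => prod_eq_one fun q _ => ?_⟩
      exact sy_zero_left m E e
    · rw [h, one_smul]
      exact ha

/-- the vectors of a pair -/
def tv (m : Fin 4 → ℕ) (x : ℕ × ℕ) : ↥(Mt m).primeFactors → V2 := fun p => dV x p

lemma tv_inj {m : Fin 4 → ℕ} (h : Squarefree (Mt m)) {x y : ℕ × ℕ} (x1 : x.1 ∣ Mt m)
    (x2 : x.2 ∣ Mt m) (y1 : y.1 ∣ Mt m) (y2 : y.2 ∣ Mt m) (hxy : tv m x = tv m y) : x = y := by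
  apply Prod.ext
  · refine vec_inj h x1 y1 ?_
    funext p
    exact congrArg Prod.fst (congrFun hxy p)
  · refine vec_inj h x2 y2 ?_
    funext p
    exact congrArg Prod.snd (congrFun hxy p)

lemma tv_surj {m : Fin 4 → ℕ} (h : Squarefree (Mt m)) (w : ↥(Mt m).primeFactors → V2) :
    ∃ x : ℕ × ℕ, x.1 ∣ Mt m ∧ x.2 ∣ Mt m ∧ tv m x = w := by
  obtain ⟨a, ha, ha'⟩ := vec_surj h (fun p => (w p).1)
  obtain ⟨b, hb, hb'⟩ := vec_surj h (fun p => (w p).2)
  refine ⟨(a, b), ha, hb, ?_⟩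
  funext p
  exact Prod.ext (congrFun ha' p) (congrFun hb' p)

/-- the condition in `N0` -/
def cnd (m : Fin 4 → ℕ) (E : Fin 3 → Finset ℕ) (x : ℕ × ℕ) : Prop :=
  ∀ p ∈ (Mt m).primeFactors, ∀ e, Ln (cl m p) e →
    (∏ q ∈ (Mt m).primeFactors, sy m E p q (dV x q) e) = 1

instance (m : Fin 4 → ℕ) (E : Fin 3 → Finset ℕ) : DecidablePred (cnd m E) := fun x => by
  unfold cnd
  infer_instance

/-- the pairs in `K` -/
def KN (m : Fin 4 → ℕ) (E : Fin 3 → Finset ℕ) : Finset (ℕ × ℕ) := (Kd m).filter (cnd m E)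

lemma N0_eq (m : Fin 4 → ℕ) (E : Fin 3 → Finset ℕ) : N0 m E = (KN m E).card := by
  unfold N0 KN cnd
  congr 1

lemma cnd_iff (m : Fin 4 → ℕ) (E : Fin 3 → Finset ℕ) (x : ℕ × ℕ) : cnd m E x ↔
    ∀ p : ↥(Mt m).primeFactors, ∀ e, Ln (cl m p) e →
      ∏ q : ↥(Mt m).primeFactors, sy m E p q (tv m x q) e = 1 := by
  have key : ∀ (p : ℕ) (e : V2), (∏ q : ↥(Mt m).primeFactors, sy m E p q (tv m x q) e) =
      ∏ q ∈ (Mt m).primeFactors, sy m E p q (dV x q) e := fun p e =>
    Finset.prod_coe_sort (Mt m).primeFactors (fun q => sy m E p q (dV x q) e)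
  unfold cnd
  constructor
  · intro h p e he
    rw [key]
    exact h p p.2 e he
  · intro h p hp e he
    have := h ⟨p, hp⟩ e he
    rw [key] at this
    exact this

lemma mem_Kd {m : Fin 4 → ℕ} (h : Mt m ≠ 0) (x : ℕ × ℕ) : x ∈ Kd m ↔
    (x.1 ∣ Mt m ∧ x.2 ∣ Mt m) ∧ ∀ p : ↥(Mt m).primeFactors, Ln (cl m p) (tv m x p) := by
  unfold Kd
  rw [mem_filter, mem_product, Nat.mem_divisors, Nat.mem_divisors]
  constructor
  · rintro ⟨⟨h1, h2⟩, h3⟩
    exact ⟨⟨h1.1, h2.1⟩, fun p => h3 p p.2⟩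
  · rintro ⟨⟨h1, h2⟩, h3⟩
    exact ⟨⟨⟨h1, h⟩, ⟨h2, h⟩⟩, fun p hp => h3 ⟨p, hp⟩⟩

lemma mem_KN {m : Fin 4 → ℕ} {E : Fin 3 → Finset ℕ} (h : Mt m ≠ 0) (x : ℕ × ℕ) : x ∈ KN m E ↔
    (x.1 ∣ Mt m ∧ x.2 ∣ Mt m) ∧ tv m x ∈ VK m E := by
  unfold KN
  rw [mem_filter, mem_Kd h, cnd_iff, and_assoc]
  exact Iff.rfl

/-- the bijection of the pairs and the vectors -/
noncomputable def eqv2 {m : Fin 4 → ℕ} (E : Fin 3 → Finset ℕ) (h : Squarefree (Mt m)) :
    ↥(KN m E) ≃ ↥(VK m E) :=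
  Equiv.ofBijective (fun x => ⟨tv m x.1, ((mem_KN h.ne_zero _).1 x.2).2⟩) <| by
    constructor
    · intro x y hxy
      have hx := ((mem_KN h.ne_zero _).1 x.2).1
      have hy := ((mem_KN h.ne_zero _).1 y.2).1
      exact Subtype.ext (tv_inj h hx.1 hx.2 hy.1 hy.2 (congrArg Subtype.val hxy))
    · intro w
      obtain ⟨x, h1, h2, h3⟩ := tv_surj h w.1
      refine ⟨⟨x, (mem_KN h.ne_zero x).2 ⟨⟨h1, h2⟩, by rw [h3]; exact w.2⟩⟩, ?_⟩
      exact Subtype.ext h3

/-! ## The character sums -/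

/-- the sum of a character of a line -/
lemma char_sum (c : Fin 4) (χ : V2 → ℤ) (h1 : ∀ e f, Ln c e → Ln c f → χ (e + f) = χ e * χ f)
    (h2 : ∀ e, χ e = 1 ∨ χ e = -1) :
    ∑ v ∈ univ.filter (Ln c), χ v = if (∀ e, Ln c e → χ e = 1) then
      (((univ : Finset V2).filter (Ln c)).card : ℤ) else 0 := by
  split_ifs with h
  · rw [sum_congr rfl (fun v hv => h v (mem_filter.1 hv).2), sum_const, nsmul_eq_mul, mul_one]
  · push Not at h
    obtain ⟨e, he, h3⟩ := h
    have h4 : χ e = -1 := (h2 e).resolve_left h3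
    have hee : e + e = 0 := by
      clear h4 h3 he
      revert e
      decide
    have h5 : ∑ v ∈ univ.filter (Ln c), χ v = ∑ v ∈ univ.filter (Ln c), χ (v + e) := by
      refine Finset.sum_bij' (fun v _ => v + e) (fun v _ => v + e) ?_ ?_ ?_ ?_ ?_
      · intro v hv
        exact mem_filter.2 ⟨mem_univ _, Ln_add (mem_filter.1 hv).2 he⟩
      · intro v hv
        exact mem_filter.2 ⟨mem_univ _, Ln_add (mem_filter.1 hv).2 he⟩
      · intro v _
        rw [add_assoc, hee, add_zero]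
      · intro v _
        rw [add_assoc, hee, add_zero]
      · intro v _
        rw [add_assoc, hee, add_zero]
    have h6 : ∑ v ∈ univ.filter (Ln c), χ (v + e) = - ∑ v ∈ univ.filter (Ln c), χ v := by
      rw [← sum_neg_distrib]
      refine sum_congr rfl fun v hv => ?_
      rw [h1 v e (mem_filter.1 hv).2 he, h4]
      ring
    rw [h6] at h5
    omega

lemma chi_pm {m : Fin 4 → ℕ} (E : Fin 3 → Finset ℕ) (x : ℕ × ℕ) {p : ℕ} (hp : p.Prime) (e : V2) :
    (∏ q ∈ (Mt m).primeFactors, sy m E p q (dV x q) e) = 1 ∨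
    (∏ q ∈ (Mt m).primeFactors, sy m E p q (dV x q) e) = -1 :=
  prod_pm _ _ fun q hq => sy_pm m E hp (Nat.prime_of_mem_primeFactors hq) _ _

lemma csum {m : Fin 4 → ℕ} (E : Fin 3 → Finset ℕ) (h : Squarefree (Mt m)) (x : ℕ × ℕ) :
    ∑ e ∈ Kd m, ∏ p ∈ (Mt m).primeFactors, ∏ q ∈ (Mt m).primeFactors,
      sy m E p q (dV x q) (dV e p) =
      if cnd m E x then
        ∏ p ∈ (Mt m).primeFactors, (((univ : Finset V2).filter (Ln (cl m p))).card : ℤ) else 0 := by
  have e1 : ∑ e ∈ Kd m, ∏ p ∈ (Mt m).primeFactors, ∏ q ∈ (Mt m).primeFactors,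
      sy m E p q (dV x q) (dV e p) =
      ∑ w ∈ Fintype.piFinset (fun p : ↥(Mt m).primeFactors => univ.filter (Ln (cl m p))),
        ∏ p : ↥(Mt m).primeFactors, ∏ q ∈ (Mt m).primeFactors, sy m E p q (dV x q) (w p) := by
    refine Finset.sum_bij (fun e _ => tv m e) ?_ ?_ ?_ ?_
    · intro e he
      rw [Fintype.mem_piFinset]
      exact fun p => mem_filter.2 ⟨mem_univ _, ((mem_Kd h.ne_zero e).1 he).2 p⟩
    · intro a ha b hb hab
      have h1 := ((mem_Kd h.ne_zero a).1 ha).1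
      have h2 := ((mem_Kd h.ne_zero b).1 hb).1
      exact tv_inj h h1.1 h1.2 h2.1 h2.2 hab
    · intro w hw
      rw [Fintype.mem_piFinset] at hw
      obtain ⟨y, h1, h2, h3⟩ := tv_surj h w
      refine ⟨y, (mem_Kd h.ne_zero y).2 ⟨⟨h1, h2⟩, fun p => ?_⟩, h3⟩
      rw [h3]
      exact (mem_filter.1 (hw p)).2
    · intro e _
      exact (Finset.prod_coe_sort (Mt m).primeFactors
        (fun p => ∏ q ∈ (Mt m).primeFactors, sy m E p q (dV x q) (dV e p))).symm
  rw [e1, ← Finset.prod_univ_sum (fun p : ↥(Mt m).primeFactors => univ.filter (Ln (cl m p)))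
    (fun p v => ∏ q ∈ (Mt m).primeFactors, sy m E p q (dV x q) v)]
  have e2 : ∀ p : ↥(Mt m).primeFactors, ∑ v ∈ univ.filter (Ln (cl m p)),
      ∏ q ∈ (Mt m).primeFactors, sy m E p q (dV x q) v =
      if (∀ e, Ln (cl m p) e → (∏ q ∈ (Mt m).primeFactors, sy m E p q (dV x q) e) = 1) then
        (((univ : Finset V2).filter (Ln (cl m p))).card : ℤ) else 0 := by
    intro p
    have hp := Nat.prime_of_mem_primeFactors p.2
    refine char_sum (cl m p) (fun v => ∏ q ∈ (Mt m).primeFactors, sy m E p q (dV x q) v) ?_ ?_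
    · intro e f he hf
      rw [← prod_mul_distrib]
      refine prod_congr rfl fun q hq => ?_
      exact sy_add_right m E hp (Nat.prime_of_mem_primeFactors hq) _ he hf
    · exact fun e => chi_pm E x hp e
  rw [prod_congr rfl fun p _ => e2 p]
  split_ifs with hc
  · rw [← Finset.prod_coe_sort (Mt m).primeFactors
      (fun p => (((univ : Finset V2).filter (Ln (cl m p))).card : ℤ))]
    exact prod_congr rfl fun p _ => if_pos (hc p p.2)
  · unfold cnd at hc
    push Not at hc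
    obtain ⟨p, hp, e, he, h1⟩ := hc
    refine prod_eq_zero (mem_univ (⟨p, hp⟩ : ↥(Mt m).primeFactors)) (if_neg ?_)
    exact fun h2 => h1 (h2 e he)

end Pool.Agent.L7h65.FD
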