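import Pool.Agent.L7h65.FD.Lad0

set_option autoImplicit false

/-!
# Project FD, part LAD: the classes, the sums, the spaces `K_c`
-/

namespace Pool.Agent.L7h65.FD

open Finset Pool.Agent.L7h19.FD
open Pool.Agent.L7h19.IK (Idp)
open Pool.Agent.L7h65.IK
open Pool.Agent.L7h65.FT (sum_gen union_bound fin_ineq)

variable {m : Fin 4 → ℕ} {E : Fin 3 → Finset ℕ}

/-! ## The classes -/

lemma cop (h : Ok m) {c e : Fin 4} (hce : c ≠ e) : (m c).Coprime (m e) := by
  have h1 : m c * m e ∣ Mt m := by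
    unfold Mt
    rw [← prod_pair hce]
    exact prod_dvd_prod_of_subset _ _ _ (subset_univ _)
  exact ((Nat.squarefree_mul_iff).1 (h.2.squarefree_of_dvd h1)).1

lemma dvd_Mt (m : Fin 4 → ℕ) (c : Fin 4) : m c ∣ Mt m := dvd_prod_of_mem _ (mem_univ c)

lemma Mt_ne (h : Ok m) : Mt m ≠ 0 := h.2.ne_zero

lemma m_ne (h : Ok m) (c : Fin 4) : m c ≠ 0 := fun h0 => Mt_ne h (by
  have := dvd_Mt m c
  rw [h0] at this
  exact zero_dvd_iff.1 this)

lemma cls_uniq (h : Ok m) {p : ℕ} (hp : p.Prime) {c e : Fin 4} (h1 : p ∣ m c) (h2 : p ∣ m e) :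
    c = e := by
  by_contra hne
  exact Nat.not_coprime_of_dvd_of_dvd hp.one_lt h1 h2 (cop h hne)

lemma cl_eq (h : Ok m) {p : ℕ} (hp : p.Prime) {e : Fin 4} (he : p ∣ m e) : cl m p = e := by
  unfold cl
  split_ifs with h0 h1 h2
  · exact cls_uniq h hp h0 he
  · exact cls_uniq h hp h1 he
  · exact cls_uniq h hp h2 he
  · have key : ∀ e : Fin 4, e ≠ 0 → e ≠ 1 → e ≠ 2 → 3 = e := by decide
    refine key e ?_ ?_ ?_
    · intro hh
      rw [hh] at he
      exact h0 he
    · intro hh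
      rw [hh] at he
      exact h1 he
    · intro hh
      rw [hh] at he
      exact h2 he

lemma cl_dvd (h : Ok m) {p : ℕ} (hp : p ∈ (Mt m).primeFactors) : p ∣ m (cl m p) := by
  have hp' := Nat.prime_of_mem_primeFactors hp
  have hd := Nat.dvd_of_mem_primeFactors hp
  unfold Mt at hd
  obtain ⟨e, -, he⟩ := (hp'.prime.dvd_finsetProd_iff _).1 hd
  rw [cl_eq h hp' he]
  exact he

lemma card_Ln (c : Fin 4) : ((univ : Finset V2).filter (Ln c)).card = if c = 3 then 4 else 2 := by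
  revert c
  decide

lemma prod_Ln (h : Ok m) : ∏ p ∈ (Mt m).primeFactors, ((univ : Finset V2).filter (Ln (cl m p))).card =
    2 ^ (m 0 * m 1 * m 2).primeFactors.card * 4 ^ (m 3).primeFactors.card := by
  have hM : Mt m = (m 0 * m 1 * m 2) * m 3 := by
    unfold Mt
    rw [Fin.prod_univ_four]
  have hc : (m 0 * m 1 * m 2).Coprime (m 3) :=
    Nat.Coprime.mul_left (Nat.Coprime.mul_left (cop h (by decide)) (cop h (by decide)))
      (cop h (by decide))
  rw [hM, Nat.Coprime.primeFactors_mul hc, prod_union (Nat.Coprime.disjoint_primeFactors hc)]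
  congr 1
  · rw [prod_congr rfl (g := fun _ => 2), prod_const]
    intro p hp
    have hp' := Nat.prime_of_mem_primeFactors hp
    have hd := Nat.dvd_of_mem_primeFactors hp
    rw [card_Ln, if_neg]
    rcases (hp'.prime.dvd_mul).1 hd with h1 | h1
    · rcases (hp'.prime.dvd_mul).1 h1 with h2 | h2
      · rw [cl_eq h hp' h2]
        decide
      · rw [cl_eq h hp' h2]
        decide
    · rw [cl_eq h hp' h1]
      decide
  · rw [prod_congr rfl (g := fun _ => 4), prod_const]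
    intro p hp
    have hp' := Nat.prime_of_mem_primeFactors hp
    have hd := Nat.dvd_of_mem_primeFactors hp
    rw [card_Ln, if_pos]
    exact cl_eq h hp' hd

lemma TK_eq (h : Ok m) (E : Fin 3 → Finset ℕ) (k : ℕ) : TK k m E =
    (((Fintype.piFinset (fun _ : Fin k => KN m E)).filter (Cd k m)).card : ℝ) := by
  set C : ℕ := ∏ p ∈ (Mt m).primeFactors, ((univ : Finset V2).filter (Ln (cl m p))).card with hC
  have hCk : (2 : ℝ) ^ (k * (m 0 * m 1 * m 2).primeFactors.card) *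
      4 ^ (k * (m 3).primeFactors.card) = (C : ℝ) ^ k := by
    rw [hC, prod_Ln h]
    push_cast
    rw [mul_pow, ← pow_mul, ← pow_mul, mul_comm k, mul_comm k]
  have h1 : ∀ d : Fin k → ℕ × ℕ, ∑ e ∈ Fintype.piFinset (fun _ : Fin k => Kd m),
      ∏ i, ∏ p ∈ (Mt m).primeFactors, ∏ q ∈ (Mt m).primeFactors,
        (sy m E p q (dV (d i) q) (dV (e i) p) : ℝ) =
      if (∀ i, cnd m E (d i)) then (C : ℝ) ^ k else 0 := by
    intro d
    rw [← Finset.prod_univ_sum (fun _ : Fin k => Kd m)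
      (fun i e => ∏ p ∈ (Mt m).primeFactors, ∏ q ∈ (Mt m).primeFactors,
        (sy m E p q (dV (d i) q) (dV e p) : ℝ))]
    have h2 : ∀ i : Fin k, ∑ e ∈ Kd m, ∏ p ∈ (Mt m).primeFactors, ∏ q ∈ (Mt m).primeFactors,
        (sy m E p q (dV (d i) q) (dV e p) : ℝ) = if cnd m E (d i) then (C : ℝ) else 0 := by
      intro i
      have h3 := congrArg (Int.cast : ℤ → ℝ) (csum E h.2 (d i))
      push_cast at h3
      rw [h3, hC]
      push_cast
      rfl
    rw [prod_congr rfl fun i _ => h2 i]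
    split_ifs with hc
    · rw [prod_congr rfl (fun i _ => if_pos (hc i)), prod_const, card_univ, Fintype.card_fin]
    · push Not at hc
      obtain ⟨i, hi⟩ := hc
      exact prod_eq_zero (mem_univ i) (if_neg hi)
  unfold TK
  rw [div_eq_iff (by positivity), hCk, sum_congr rfl (fun d _ => h1 d), ← sum_filter, sum_const,
    nsmul_eq_mul]
  congr 2
  unfold KN
  congr 1
  ext e
  simp only [mem_filter, Fintype.mem_piFinset]
  constructor
  · rintro ⟨⟨h3, h4⟩, h5⟩
    exact ⟨fun i => ⟨h3 i, h5 i⟩, h4⟩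
  · rintro ⟨h3, h4⟩
    exact ⟨⟨fun i => (h3 i).1, h4⟩, fun i => (h3 i).2⟩

/-! ## The numbers `Ms`, `Mo` -/

lemma cs_ne (c : Fin 3) : c.castSucc ≠ (3 : Fin 4) := by
  revert c
  decide

lemma mm_dvd (m : Fin 4 → ℕ) (c : Fin 3) : m c.castSucc * m 3 ∣ Mt m := by
  unfold Mt
  rw [← prod_pair (cs_ne c)]
  exact prod_dvd_prod_of_subset _ _ _ (subset_univ _)

lemma Ms_dvd (h : Ok m) (E : Fin 3 → Finset ℕ) (c : Fin 3) : Ms m E c ∣ m c.castSucc * m 3 := by
  have h1 : Ms m E c ∣ ∏ p ∈ (m c.castSucc * m 3).primeFactors, p :=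
    prod_dvd_prod_of_subset _ _ _ (filter_subset _ _)
  rwa [Nat.prod_primeFactors_of_squarefree (h.2.squarefree_of_dvd (mm_dvd m c))] at h1

lemma Ms_sqf (h : Ok m) (E : Fin 3 → Finset ℕ) (c : Fin 3) : Squarefree (Ms m E c) :=
  h.2.squarefree_of_dvd ((Ms_dvd h E c).trans (mm_dvd m c))

lemma Mo_dvd (m : Fin 4 → ℕ) (c : Fin 3) : Mo m c ∣ Mt m :=
  prod_dvd_prod_of_subset _ _ _ (filter_subset _ _)

lemma Mo_sqf (h : Ok m) (c : Fin 3) : Squarefree (Mo m c) :=
  h.2.squarefree_of_dvd (Mo_dvd m c)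

lemma mem_Mo {c : Fin 3} {q : ℕ} (hq : q ∈ (Mo m c).primeFactors) :
    ∃ e, e ≠ c.castSucc ∧ q ∣ m e := by
  have hp := Nat.prime_of_mem_primeFactors hq
  have hd := Nat.dvd_of_mem_primeFactors hq
  unfold Mo at hd
  obtain ⟨e, he, hqe⟩ := (hp.prime.dvd_finsetProd_iff _).1 hd
  exact ⟨e, (mem_filter.1 he).2, hqe⟩

/-- the symbols of `K_c`, the divisor of `Ms` first -/
def sK (m : Fin 4 → ℕ) (E : Fin 3 → Finset ℕ) (c : Fin 3) (q p : ℕ) : ℤ := sc m E c p q

lemma sc_pm (m : Fin 4 → ℕ) (E : Fin 3 → Finset ℕ) (c : Fin 3) {a b : ℕ} :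
    ∀ p ∈ a.primeFactors, ∀ q ∈ b.primeFactors, sc m E c p q = 1 ∨ sc m E c p q = -1 := by
  intro p hp q hq
  unfold sc
  split_ifs with h1
  · exact sn_pm _
  · exact jac_pm (Nat.prime_of_mem_primeFactors hp) (Nat.prime_of_mem_primeFactors hq) h1

lemma sK_pm (m : Fin 4 → ℕ) (E : Fin 3 → Finset ℕ) (c : Fin 3) {a b : ℕ} :
    ∀ q ∈ a.primeFactors, ∀ p ∈ b.primeFactors, sK m E c q p = 1 ∨ sK m E c q p = -1 :=
  fun q hq p hp => sc_pm m E c p hp q hq

lemma FK_true (h : Ok m) (E : Fin 3 → Finset ℕ) (a b r : ℕ) (c : Fin 3) : FK true a b r m E c =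
    ((Ind (sK m E c) r (Mo m c) (Ms m E c)).card : ℝ) * 2 ^ (r * (Mo m c).primeFactors.card) /
      (2 ^ (a * (Ms m E c).primeFactors.card) * 2 ^ (b * (Mo m c).primeFactors.card)) := by
  have h1 := sum_gen (sK m E c) r (Mo_sqf h c) (Ms_sqf h E c).ne_zero (sK_pm m E c)
    (Idp r (Ms m E c))
  unfold FK Ind
  congr 1
  rw [← h1, sum_filter]
  refine sum_congr rfl fun d _ => ?_
  by_cases hd : Idp r (Ms m E c) d
  · rw [if_pos hd]
    refine sum_congr rfl fun e _ => ?_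
    rw [if_pos (by rw [if_pos rfl]; exact hd)]
    refine prod_congr rfl fun i _ => ?_
    rw [prod_comm]
    rfl
  · rw [if_neg hd]
    refine sum_eq_zero fun e _ => ?_
    rw [if_neg (by rw [if_pos rfl]; exact hd)]

lemma FK_false (h : Ok m) (E : Fin 3 → Finset ℕ) (a b r : ℕ) (c : Fin 3) : FK false a b r m E c =
    ((Ind (sc m E c) r (Ms m E c) (Mo m c)).card : ℝ) * 2 ^ (r * (Ms m E c).primeFactors.card) /
      (2 ^ (a * (Ms m E c).primeFactors.card) * 2 ^ (b * (Mo m c).primeFactors.card)) := by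
  have h1 := sum_gen (sc m E c) r (Ms_sqf h E c) (Mo_sqf h c).ne_zero
    (sc_pm m E c) (Idp r (Mo m c))
  unfold FK Ind
  congr 1
  rw [← h1, sum_filter, sum_comm]
  refine sum_congr rfl fun e _ => ?_
  by_cases he : Idp r (Mo m c) e
  · rw [if_pos he]
    refine sum_congr rfl fun d _ => ?_
    rw [if_pos (by rw [if_neg (by decide)]; exact he)]
  · rw [if_neg he]
    refine sum_eq_zero fun d _ => ?_
    rw [if_neg (by rw [if_neg (by decide)]; exact he)]

lemma FK_nonneg (h : Ok m) (E : Fin 3 → Finset ℕ) (τ : Bool) (a b r : ℕ) (c : Fin 3) :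
    0 ≤ FK τ a b r m E c := by
  cases τ
  · rw [FK_false h]; positivity
  · rw [FK_true h]; positivity

/-! ## The spaces `K_c` -/

lemma om2_dc (c : Fin 3) {v : V2} (hv : Ln c.castSucc v) : om2 v (dc c.castSucc) = 0 := by
  rcases hv with h | h | h
  · exact absurd h (cs_ne c)
  · rw [h, om2_zero_left]
  · rw [h, om2_self]

lemma Ln_dc : ∀ (c : Fin 3) (e : Fin 4), Ln e (dc c.castSucc) → e = 3 ∨ e = c.castSucc := by
  decide

lemma om2_xo : ∀ c : Fin 3, om2 (dc c.castSucc) (xo c) ≠ 0 := by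
  decide

lemma om2_ne : ∀ (c : Fin 3) (e : Fin 4), e ≠ 3 → e ≠ c.castSucc →
    om2 (dc c.castSucc) (dc e) ≠ 0 := by
  decide

/-- an element of the space with values in one line -/
lemma mem_Kc (h : Ok m) {c : Fin 3} {w : ↥(Mt m).primeFactors → V2} (hw : w ∈ VK m E)
    (hc : ∀ p, Ln c.castSucc (w p)) {e : ℕ} (he : e ∣ Mt m)
    (hwe : ∀ p : ↥(Mt m).primeFactors, (p : ℕ) ∣ e ↔ w p ≠ 0) :
    e ∈ KK (sK m E c) (Mo m c) (Ms m E c) := by
  have he0 : e ≠ 0 := fun h0 => Mt_ne h (by rw [h0] at he; exact zero_dvd_iff.1 he)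
  have hesq : Squarefree e := h.2.squarefree_of_dvd he
  have hsub : e.primeFactors ⊆ (Mt m).primeFactors := Nat.primeFactors_mono he (Mt_ne h)
  have hv : ∀ p : ↥(Mt m).primeFactors, (p : ℕ) ∣ e → w p = dc c.castSucc := by
    intro p hp
    rcases hc p with h1 | h1 | h1
    · exact absurd h1 (cs_ne c)
    · exact absurd h1 ((hwe p).1 hp)
    · exact h1
  have hv0 : ∀ p : ↥(Mt m).primeFactors, ¬ (p : ℕ) ∣ e → w p = 0 := by
    intro p hp
    by_contra h1
    exact hp ((hwe p).2 h1)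
  have hcl : ∀ p : ↥(Mt m).primeFactors, (p : ℕ) ∣ e → cl m p = 3 ∨ cl m p = c.castSucc := by
    intro p hp
    have h1 := hw.1 p
    rw [hv p hp] at h1
    exact Ln_dc c _ h1
  have hdg : ∀ p : ↥(Mt m).primeFactors, (p : ℕ) ∣ e →
      dg (cl m p) (nb E p) (m4 p) (dc c.castSucc) (dc c.castSucc) = 0 := by
    intro p hp
    have h1 : Ln (cl m p) (dc c.castSucc) := by
      rcases hcl p hp with h2 | h2
      · exact Or.inl h2
      · rw [h2]
        exact Or.inr (Or.inr rfl)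
    have h2 := hw.2 p _ h1
    rw [prod_eq_single p] at h2
    · unfold Pool.Agent.L7h19.FD.sy at h2
      rw [if_pos rfl, hv p hp] at h2
      exact sn_eq_one h2
    · intro q _ hq
      have hq' : (q : ℕ) ≠ p := fun h3 => hq (Subtype.ext h3)
      unfold Pool.Agent.L7h19.FD.sy
      rw [if_neg hq', if_pos (om2_dc c (hc q))]
    · intro hn
      exact absurd (mem_univ _) hn
  unfold KK
  rw [mem_filter, Nat.mem_divisors]
  refine ⟨⟨?_, (Ms_sqf h E c).ne_zero⟩, ?_⟩
  · rw [← Nat.prod_primeFactors_of_squarefree hesq]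
    unfold Ms
    apply prod_dvd_prod_of_subset
    intro q hq
    have hqp := Nat.prime_of_mem_primeFactors hq
    have hqd := Nat.dvd_of_mem_primeFactors hq
    rw [mem_filter, Nat.mem_primeFactors]
    refine ⟨⟨hqp, ?_, mul_ne_zero (m_ne h _) (m_ne h _)⟩, hdg ⟨q, hsub hq⟩ hqd⟩
    have h1 := cl_dvd h (hsub hq)
    rcases hcl ⟨q, hsub hq⟩ hqd with h2 | h2
    · have h3 : cl m q = 3 := h2
      rw [h3] at h1
      exact h1.mul_left _
    · have h3 : cl m q = c.castSucc := h2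
      rw [h3] at h1
      exact h1.mul_right _
  · intro p hp
    have hpp := Nat.prime_of_mem_primeFactors hp
    obtain ⟨e', he', hpe⟩ := mem_Mo hp
    have hpM : p ∈ (Mt m).primeFactors :=
      Nat.mem_primeFactors.2 ⟨hpp, hpe.trans (dvd_Mt m e'), Mt_ne h⟩
    have hclp : cl m p ≠ c.castSucc := by
      rw [cl_eq h hpp hpe]
      exact he'
    obtain ⟨f, hf1, hf2, hf3⟩ : ∃ f : V2, Ln (cl m p) f ∧ om2 (dc c.castSucc) f ≠ 0 ∧
        (cl m p = 3 → f = xo c) := by
      by_cases h3 : cl m p = 3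
      · exact ⟨xo c, Or.inl h3, om2_xo c, fun _ => rfl⟩
      · exact ⟨dc (cl m p), Or.inr (Or.inr rfl), om2_ne c _ h3 hclp, fun h4 => absurd h4 h3⟩
    have h1 := hw.2 ⟨p, hpM⟩ f hf1
    have h2 : ∏ q : ↥(Mt m).primeFactors, Pool.Agent.L7h19.FD.sy m E p q (w q) f =
        ∏ q : ↥(Mt m).primeFactors, if (q : ℕ) ∣ e then sK m E c q p else 1 := by
      refine prod_congr rfl fun q _ => ?_
      split_ifs with hq
      · rw [hv q hq]
        unfold Pool.Agent.L7h19.FD.sy sK sc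
        by_cases hqp : (q : ℕ) = p
        · rw [if_pos hqp, if_pos hqp]
          have h4 := hcl q hq
          rw [hqp] at h4
          rw [hf3 (h4.resolve_right hclp)]
        · rw [if_neg hqp, if_neg hqp, if_neg hf2]
      · rw [hv0 q hq]
        exact sy_zero_left m E f
    have h3 : ∏ q : ↥(Mt m).primeFactors, (if (q : ℕ) ∣ e then sK m E c q p else 1) =
        ∏ q ∈ (Mt m).primeFactors, if q ∣ e then sK m E c q p else 1 :=
      Finset.prod_coe_sort (Mt m).primeFactors (fun q => if q ∣ e then sK m E c q p else 1)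
    rw [← filter_dvd (Mt_ne h) he, prod_filter, ← h3, ← h2]
    exact h1

end Pool.Agent.L7h65.FD
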